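import Pool.Agent.helper43.KG.Spec

set_option autoImplicit false

/-!
# Row NUM of project kg (MP_cef0b4_gt, owner helper43)
-/

namespace Pool.Agent.helper43.KG

open Finset MeasureTheory ProbabilityTheory
open scoped ENNReal

/-- The lower bound by `Φ`. -/
theorem NUM_low (hs : SHI) (hg : GSC) (p a v : ℝ) (hp1 : 1 ≤ p) (hp2 : p ≤ 2) (hv : 0 < v) :
    gam p * (v ^ (p / 2) * (Real.exp (-(a ^ 2 / v / 2)) *
      (1 + (p + 1) * (a ^ 2 / v) / 2 + (p + 1) * (p + 3) * (a ^ 2 / v) ^ 2 / 24))) ≤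
      GH p a (Real.sqrt v) := by
  have hsv : 0 < Real.sqrt v := Real.sqrt_pos.2 hv
  have h1 := hg p (a / Real.sqrt v) 1 (Real.sqrt v) hsv.le
  rw [mul_div_cancel₀ _ hsv.ne', mul_one] at h1
  rw [h1]
  have h2 := hs p (a / Real.sqrt v) hp1 hp2
  have hm2 : (a / Real.sqrt v) ^ 2 = a ^ 2 / v := by
    rw [div_pow, Real.sq_sqrt hv.le]
  have hm4 : (a / Real.sqrt v) ^ 4 = (a ^ 2 / v) ^ 2 := by
    rw [← hm2]
    ring
  rw [hm2, hm4] at h2
  have h3 : Real.sqrt v ^ p = v ^ (p / 2) := by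
    rw [Real.sqrt_eq_rpow, ← Real.rpow_mul hv.le]
    congr 1
    ring
  rw [h3]
  have h4 : 0 ≤ v ^ (p / 2) := Real.rpow_nonneg hv.le _
  refine le_trans (le_of_eq ?_) (mul_le_mul_of_nonneg_left h2 h4)
  ring

theorem t_num (h0 : NU0) (hs : SHI) (hu : GUP) (hg : GSC) : NUM := by
  intro p hp1 hp2
  obtain ⟨z, y, hz, hy, hzy⟩ := h0 p hp1 hp2
  obtain ⟨-, -, hgam⟩ := hu p hp1 hp2.le
  set ω : ℝ := Real.sqrt z with hω
  have hω0 : 0 < ω := Real.sqrt_pos.2 hz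
  have hω2 : ω ^ 2 = z := Real.sq_sqrt hz.le
  set c : ℝ := ω * Real.exp (-(ω ^ 2 / 2)) with hc
  set v : ℝ := (1 + Real.exp (-(2 * ω ^ 2))) / 2 with hv
  have hc0 : 0 < c := mul_pos hω0 (Real.exp_pos _)
  have hv0 : 0 < v := by
    have := Real.exp_pos (-(2 * ω ^ 2))
    rw [hv]
    linarith
  have hvz : v = Real.exp (-z) * Real.cosh z := by
    rw [hv, hω2, Real.cosh_eq, mul_div_assoc', mul_add, ← Real.exp_add, ← Real.exp_add]
    congr 2
    · rw [neg_add_cancel, Real.exp_zero]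
    · congr 1
      ring
  have hcosh : 0 < Real.cosh z := Real.cosh_pos z
  have hcv : c ^ 2 / v = y := by
    have e1 : c ^ 2 = z * Real.exp (-z) := by
      rw [hc, mul_pow, hω2, ← Real.exp_nat_mul]
      congr 2
      push_cast
      ring
    rw [e1, hvz, hy]
    have := Real.exp_pos (-z)
    field_simp
  -- the function
  set Ψ : ℝ → ℝ := fun ρ => gam p * ((v - ρ) ^ (p / 2) * (Real.exp (-((c - ρ) ^ 2 / (v - ρ) / 2)) *
      (1 + (p + 1) * ((c - ρ) ^ 2 / (v - ρ)) / 2 +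
        (p + 1) * (p + 3) * ((c - ρ) ^ 2 / (v - ρ)) ^ 2 / 24))) - ρ with hΨ
  have hΨ0 : gam p < Ψ 0 := by
    rw [hΨ]
    simp only [sub_zero]
    rw [hcv]
    have e1 : v ^ (p / 2) = Real.exp (-(p / 2 * z)) * Real.cosh z ^ (p / 2) := by
      rw [hvz, Real.mul_rpow (Real.exp_pos _).le hcosh.le, ← Real.exp_mul]
      congr 2
      ring
    rw [e1]
    have e2 : gam p = gam p * 1 := (mul_one _).symm
    have e3 : Real.exp (-(p / 2 * z)) * Real.cosh z ^ (p / 2) * (Real.exp (-(y / 2)) *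
        (1 + (p + 1) * y / 2 + (p + 1) * (p + 3) * y ^ 2 / 24)) =
        Real.exp (-(p / 2 * z)) * Real.cosh z ^ (p / 2) * Real.exp (-(y / 2)) *
        (1 + (p + 1) * y / 2 + (p + 1) * (p + 3) * y ^ 2 / 24) := by ring
    rw [e3]
    calc gam p = gam p * 1 := (mul_one _).symm
      _ < gam p * (Real.exp (-(p / 2 * z)) * Real.cosh z ^ (p / 2) * Real.exp (-(y / 2)) *
        (1 + (p + 1) * y / 2 + (p + 1) * (p + 3) * y ^ 2 / 24)) :=
        mul_lt_mul_of_pos_left hzy hgam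
  have hcont : ContinuousAt Ψ 0 := by
    have c1 : ContinuousAt (fun ρ : ℝ => v - ρ) 0 := by fun_prop
    have c2 : ContinuousAt (fun ρ : ℝ => (c - ρ) ^ 2) 0 := by fun_prop
    have hne : (fun ρ : ℝ => v - ρ) 0 ≠ 0 := by
      simp only [sub_zero]
      exact hv0.ne'
    have c3 : ContinuousAt (fun ρ : ℝ => (c - ρ) ^ 2 / (v - ρ)) 0 := c2.div₀ c1 hne
    have c4 : ContinuousAt (fun ρ : ℝ => (v - ρ) ^ (p / 2)) 0 := c1.rpow_const (Or.inl hne)
    have c5 : ContinuousAt (fun ρ : ℝ => Real.exp (-((c - ρ) ^ 2 / (v - ρ) / 2))) 0 :=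
      (c3.div_const 2).neg.rexp
    have c6 : ContinuousAt (fun ρ : ℝ => 1 + (p + 1) * ((c - ρ) ^ 2 / (v - ρ)) / 2 +
        (p + 1) * (p + 3) * ((c - ρ) ^ 2 / (v - ρ)) ^ 2 / 24) 0 :=
      (continuousAt_const.add ((continuousAt_const.mul c3).div_const 2)).add
        ((continuousAt_const.mul (c3.pow 2)).div_const 24)
    exact (continuousAt_const.mul (c4.mul (c5.mul c6))).sub continuousAt_id
  have hev1 : ∀ᶠ ρ in nhds (0 : ℝ), gam p < Ψ ρ := hcont.tendsto.eventually (eventually_gt_nhds hΨ0)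
  have hev2 : ∀ᶠ ρ in nhds (0 : ℝ), ρ < c := eventually_lt_nhds hc0
  have hev3 : ∀ᶠ ρ in nhds (0 : ℝ), ρ < v := eventually_lt_nhds hv0
  have hev : ∀ᶠ ρ in nhdsWithin (0 : ℝ) (Set.Ioi 0), (gam p < Ψ ρ ∧ ρ < c ∧ ρ < v) ∧ ρ ∈ Set.Ioi (0 : ℝ) :=
    ((hev1.and (hev2.and hev3)).filter_mono nhdsWithin_le_nhds).and self_mem_nhdsWithin
  obtain ⟨ρ, ⟨h1, h2, h3⟩, h4⟩ := hev.exists
  refine ⟨ω, ρ, hω0, h4, h2, h3, ?_⟩
  have h5 := NUM_low hs hg p (c - ρ) (v - ρ) hp1 hp2.le (by linarith)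
  rw [hΨ] at h1
  simp only at h1
  linarith

end Pool.Agent.helper43.KG
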