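import Pool.Agent.helper43.KG.Spec

set_option autoImplicit false

/-!
# Row RDA of project kg (MP_cef0b4_gt, owner helper43)
-/

namespace Pool.Agent.helper43.KG

open Finset MeasureTheory ProbabilityTheory
open scoped ENNReal
open Pool.Agent.helper75.BM (nrm L dBM)

theorem RDA_kap (q : ℝ≥0∞) : (1 / q).toReal = 1 / q.toReal := by
  rw [ENNReal.toReal_div, ENNReal.toReal_one]

theorem RDA_q {q : ℝ≥0∞} (h : 2 < q) (ht : q ≠ ⊤) : 2 < q.toReal := by
  have h1 := (ENNReal.toReal_lt_toReal (by norm_num) ht).2 h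
  simpa using h1

/-- the exponents -/
theorem RDA_exp {q : ℝ≥0∞} (h : 2 < q) : 0 ≤ (1 / q).toReal ∧ (1 / q).toReal ≤ 1 / 2 := by
  rw [RDA_kap]
  by_cases ht : q = ⊤
  · subst ht
    simp
  · have h1 := RDA_q h ht
    refine ⟨by positivity, ?_⟩
    exact one_div_le_one_div_of_le (by norm_num) h1.le

/-- Hoelder -/
theorem RDA_holder {d : ℕ} {q : ℝ≥0∞} [hq : Fact (1 ≤ q)] (h : 2 < q) (a b : Fin d → ℝ) :
    ∑ j, a j * b j ≤ (∑ j, |a j| ^ ((1 - (1 / q).toReal)⁻¹)) ^ (1 - (1 / q).toReal) * nrm q b := by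
  by_cases ht : q = ⊤
  · subst ht
    have e : (1 / (⊤ : ℝ≥0∞)).toReal = 0 := by simp
    rw [e, sub_zero, inv_one, Real.rpow_one]
    have e2 : ∑ j, |a j| ^ (1 : ℝ) = ∑ j, |a j| :=
      Finset.sum_congr rfl (fun j _ => Real.rpow_one _)
    rw [e2, Finset.sum_mul]
    refine Finset.sum_le_sum (fun j _ => ?_)
    calc a j * b j ≤ |a j * b j| := le_abs_self _
      _ = |a j| * |b j| := abs_mul _ _
      _ ≤ |a j| * nrm ⊤ b :=
        mul_le_mul_of_nonneg_left (Pool.Agent.helper75.BM.coord_le b j) (abs_nonneg _)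
  · have h1 := RDA_q h ht
    rw [Pool.Agent.helper75.BM.nrm_eq ht, RDA_kap]
    have hk0 : 0 < 1 - 1 / q.toReal := by
      have : 1 / q.toReal ≤ 1 / 2 := one_div_le_one_div_of_le (by norm_num) h1.le
      linarith
    have hconj : Real.HolderConjugate ((1 - 1 / q.toReal)⁻¹) q.toReal := by
      rw [Real.holderConjugate_iff]
      refine ⟨?_, ?_⟩
      · rw [one_lt_inv₀ hk0]
        have : 0 < 1 / q.toReal := by positivity
        linarith
      · rw [inv_inv]
        rw [one_div]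
        ring
    have h2 := Real.inner_le_Lp_mul_Lq Finset.univ a b hconj
    rw [one_div ((1 - 1 / q.toReal)⁻¹), inv_inv] at h2
    exact h2

/-- the norm of a sign vector -/
theorem RDA_sg {d : ℕ} {q : ℝ≥0∞} [hq : Fact (1 ≤ q)] (X : Finset (Fin d)) :
    nrm q (fun j => sg X j) ≤ (d : ℝ) ^ (1 / q).toReal := by
  by_cases ht : q = ⊤
  · subst ht
    have e : (1 / (⊤ : ℝ≥0∞)).toReal = 0 := by simp
    rw [e, Real.rpow_zero, Pool.Agent.helper75.BM.nrm_top]
    exact Real.iSup_le (fun i => (sg_abs X i).le) zero_le_one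
  · rw [Pool.Agent.helper75.BM.nrm_eq ht, RDA_kap]
    apply le_of_eq
    congr 1
    have : ∀ i : Fin d, |sg X i| ^ q.toReal = 1 := fun i => by rw [sg_abs, Real.one_rpow]
    rw [Finset.sum_congr rfl (fun i _ => this i)]
    simp

/-- the norm of a basis vector -/
theorem RDA_basis {d : ℕ} {p : ℝ≥0∞} [hp : Fact (1 ≤ p)] (ht : p ≠ ⊤) (i : Fin d) :
    nrm p (Pi.single i 1 : Fin d → ℝ) = 1 := by
  have h1 := Pool.Agent.helper75.BM.toReal_ge ht
  rw [Pool.Agent.helper75.BM.nrm_eq ht]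
  have : ∑ j, |(Pi.single i 1 : Fin d → ℝ) j| ^ p.toReal = 1 := by
    rw [Finset.sum_eq_single i]
    · simp
    · intro j _ hj
      rw [Pi.single_eq_of_ne hj, abs_zero, Real.zero_rpow (by linarith)]
    · intro h
      exact absurd (Finset.mem_univ i) h
  rw [this, Real.one_rpow]

/-- matrix entries -/
theorem RDA_mat {d : ℕ} (A : (Fin d → ℝ) ≃ₗ[ℝ] (Fin d → ℝ)) (x : Fin d → ℝ) (i : Fin d) :
    A x i = ∑ j, A (Pi.single j 1) i * x j := by
  have h : x = ∑ j, x j • (Pi.single j 1 : Fin d → ℝ) := by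
    funext k
    simp [Finset.sum_apply, Pi.single_apply]
  have h2 : A x = ∑ j, x j • A (Pi.single j 1) := by
    conv_lhs => rw [h]
    rw [map_sum]
    exact Finset.sum_congr rfl (fun j _ => map_smul A _ _)
  rw [h2, Finset.sum_apply]
  refine Finset.sum_congr rfl (fun j _ => ?_)
  rw [Pi.smul_apply, smul_eq_mul, mul_comm]

theorem t_rda : RDA := by
  intro d p q _ _ lam A hd hp2 hq2 hlam hA1 hA2
  have hpt : p ≠ ⊤ := (hp2.trans (by norm_num)).ne
  have hp1 := Pool.Agent.helper75.BM.toReal_ge hpt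
  obtain ⟨hk0, hk1⟩ := RDA_exp hq2
  set κ : ℝ := (1 / q).toReal with hκ
  set ρ : ℝ := 1 - κ with hρ
  have hρ0 : 0 < ρ := by linarith
  have hr0 : 0 < ρ⁻¹ := inv_pos.2 hρ0
  have hd0 : (0 : ℝ) < d := by exact_mod_cast hd
  have hC0 : 0 < lam * (d : ℝ) ^ ρ := mul_pos hlam (Real.rpow_pos_of_pos hd0 _)
  refine ⟨fun i j => lam * (d : ℝ) ^ ρ * A (Pi.single j 1) i, ?_, ?_⟩
  · intro i
    set S : ℝ := ∑ j, |A (Pi.single j 1) i| ^ ρ⁻¹ with hS
    have hS0 : 0 ≤ S := Finset.sum_nonneg (fun j _ => Real.rpow_nonneg (abs_nonneg _) _)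
    -- the row
    have hrow : 1 ≤ lam * S ^ ρ := by
      have h1 : A (A.symm (Pi.single i 1)) i = 1 := by
        rw [LinearEquiv.apply_symm_apply]
        simp
      rw [RDA_mat] at h1
      have h2 := RDA_holder hq2 (fun j => A (Pi.single j 1) i) (A.symm (Pi.single i 1))
      rw [h1] at h2
      have h3 : nrm q (A.symm (Pi.single i 1)) ≤ lam := by
        have := hA2 (A.symm (Pi.single i 1))
        rw [LinearEquiv.apply_symm_apply, RDA_basis hpt, mul_one] at this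
        exact this
      calc (1 : ℝ) ≤ S ^ ρ * nrm q (A.symm (Pi.single i 1)) := h2
        _ ≤ S ^ ρ * lam := mul_le_mul_of_nonneg_left h3 (Real.rpow_nonneg hS0 _)
        _ = lam * S ^ ρ := mul_comm _ _
    have h4 : 1 ≤ lam ^ ρ⁻¹ * S := by
      have h5 := Real.one_le_rpow hrow hr0.le
      rw [Real.mul_rpow hlam.le (Real.rpow_nonneg hS0 _), ← Real.rpow_mul hS0,
        mul_inv_cancel₀ hρ0.ne', Real.rpow_one] at h5
      exact h5
    have h6 : ∀ j, |lam * (d : ℝ) ^ ρ * A (Pi.single j 1) i| ^ ρ⁻¹ =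
        lam ^ ρ⁻¹ * d * |A (Pi.single j 1) i| ^ ρ⁻¹ := by
      intro j
      rw [abs_mul, abs_of_pos hC0, Real.mul_rpow hC0.le (abs_nonneg _),
        Real.mul_rpow hlam.le (Real.rpow_nonneg hd0.le _), ← Real.rpow_mul hd0.le,
        mul_inv_cancel₀ hρ0.ne', Real.rpow_one]
    rw [Finset.sum_congr rfl (fun j _ => h6 j), ← Finset.mul_sum, ← hS]
    calc (d : ℝ) = d * 1 := (mul_one _).symm
      _ ≤ d * (lam ^ ρ⁻¹ * S) := mul_le_mul_of_nonneg_left h4 hd0.le
      _ = lam ^ ρ⁻¹ * d * S := by ring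
  · intro X
    have h1 : ∀ i, |∑ j, lam * (d : ℝ) ^ ρ * A (Pi.single j 1) i * sg X j| ^ p.toReal =
        (lam * (d : ℝ) ^ ρ) ^ p.toReal * |A (fun j => sg X j) i| ^ p.toReal := by
      intro i
      have e : ∑ j, lam * (d : ℝ) ^ ρ * A (Pi.single j 1) i * sg X j =
          lam * (d : ℝ) ^ ρ * A (fun j => sg X j) i := by
        rw [RDA_mat A (fun j => sg X j) i, Finset.mul_sum]
        exact Finset.sum_congr rfl (fun j _ => by ring)
      rw [e, abs_mul, abs_of_pos hC0, Real.mul_rpow hC0.le (abs_nonneg _)]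
    rw [Finset.sum_congr rfl (fun i _ => h1 i), ← Finset.mul_sum,
      ← Pool.Agent.helper75.BM.nrm_rpow hpt]
    have h2 : nrm p (A (fun j => sg X j)) ≤ (d : ℝ) ^ κ := (hA1 _).trans (RDA_sg X)
    have h3 : lam * (d : ℝ) ^ ρ * (d : ℝ) ^ κ = lam * d := by
      rw [mul_assoc, ← Real.rpow_add hd0]
      have : ρ + κ = 1 := by
        rw [hρ]
        ring
      rw [this, Real.rpow_one]
    calc (lam * (d : ℝ) ^ ρ) ^ p.toReal * nrm p (A (fun j => sg X j)) ^ p.toReal
        = (lam * (d : ℝ) ^ ρ * nrm p (A (fun j => sg X j))) ^ p.toReal :=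
          (Real.mul_rpow hC0.le (Pool.Agent.helper75.BM.nrm_nonneg _)).symm
      _ ≤ (lam * (d : ℝ) ^ ρ * (d : ℝ) ^ κ) ^ p.toReal := by
          apply Real.rpow_le_rpow
          · exact mul_nonneg hC0.le (Pool.Agent.helper75.BM.nrm_nonneg _)
          · exact mul_le_mul_of_nonneg_left h2 hC0.le
          · linarith
      _ = (lam * d) ^ p.toReal := by rw [h3]

end Pool.Agent.helper43.KG
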