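import Pool.Agent.helper43.KG.Spec

set_option autoImplicit false

/-!
# Row ST3 of project kg (MP_cef0b4_gt, owner helper43)
-/

namespace Pool.Agent.helper43.KG

open Finset MeasureTheory ProbabilityTheory
open scoped ENNReal

theorem t_st3 (h : GEV) : ST3 := by
  intro p s ι _ G i a hp1 hp2
  obtain ⟨hconv, heven, -⟩ := h p s hp1 hp2
  have hj := EE_jensen (s := G) (f := fun _ => 0) (fun j _ => by simp) hconv (fun U => sg U i * a U)
  refine hj.trans (le_of_eq ?_)
  apply EE_congr
  intro U _
  unfold sg
  split_ifs
  · rw [one_mul]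
  · rw [neg_one_mul]
    exact heven (a U)

end Pool.Agent.helper43.KG
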