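import Pool.Agent.helper43.KG.Spec

set_option autoImplicit false

/-!
# Row MON of project kg (MP_cef0b4_gt, owner helper43)
-/

namespace Pool.Agent.helper43.KG

open Finset MeasureTheory ProbabilityTheory
open scoped ENNReal

/-- one variable -/
theorem MON_one {ϕ : ℝ → ℝ} (hϕ : ConvexOn ℝ Set.univ ϕ) {f c : ℝ} (hf : |f| ≤ 1) (hc0 : 0 ≤ c)
    (hc1 : c ≤ 1) (A t : ℝ) :
    (1 + f) / 2 * ϕ (A + c * t * (1 - f)) + (1 - f) / 2 * ϕ (A + c * t * (-1 - f)) ≤
      (1 + f) / 2 * ϕ (A + t * (1 - f)) + (1 - f) / 2 * ϕ (A + t * (-1 - f)) := by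
  obtain ⟨hf0, hf1⟩ := abs_le.1 hf
  have hp : 0 ≤ (1 + f) / 2 := by linarith
  have hq : 0 ≤ (1 - f) / 2 := by linarith
  have h1 : ∀ x : ℝ, ϕ (A + c * t * x) ≤ (1 - c) * ϕ A + c * ϕ (A + t * x) := by
    intro x
    have h := hϕ.2 (Set.mem_univ A) (Set.mem_univ (A + t * x)) (show 0 ≤ 1 - c by linarith) hc0
      (by ring)
    simp only [smul_eq_mul] at h
    have e : (1 - c) * A + c * (A + t * x) = A + c * t * x := by ring
    rw [e] at h
    exact h
  have h2 : ϕ A ≤ (1 + f) / 2 * ϕ (A + t * (1 - f)) + (1 - f) / 2 * ϕ (A + t * (-1 - f)) := by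
    have h := hϕ.2 (Set.mem_univ (A + t * (1 - f))) (Set.mem_univ (A + t * (-1 - f))) hp hq (by ring)
    simp only [smul_eq_mul] at h
    have e : (1 + f) / 2 * (A + t * (1 - f)) + (1 - f) / 2 * (A + t * (-1 - f)) = A := by ring
    rw [e] at h
    exact h
  have h3 := mul_le_mul_of_nonneg_left (h1 (1 - f)) hp
  have h4 := mul_le_mul_of_nonneg_left (h1 (-1 - f)) hq
  have h5 := mul_le_mul_of_nonneg_left h2 (show 0 ≤ 1 - c by linarith)
  nlinarith

/-- the sum over `insert j s` -/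
theorem MON_sum {ι : Type} [DecidableEq ι] {s : Finset ι} {j : ι} (hj : j ∉ s) (w f : ι → ℝ) (a : ℝ)
    {U : Finset ι} (hU : U ⊆ s) :
    a + ∑ i ∈ insert j s, w i * (sg (insert j U) i - f i) =
      (a + w j * (1 - f j)) + ∑ i ∈ s, w i * (sg U i - f i) ∧
    a + ∑ i ∈ insert j s, w i * (sg U i - f i) =
      (a + w j * (-1 - f j)) + ∑ i ∈ s, w i * (sg U i - f i) := by
  have hjU : j ∉ U := fun h => hj (hU h)
  refine ⟨?_, ?_⟩
  · rw [Finset.sum_insert hj, sg_insert_self]
    have e : ∑ i ∈ s, w i * (sg (insert j U) i - f i) = ∑ i ∈ s, w i * (sg U i - f i) :=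
      Finset.sum_congr rfl (fun i hi => by
        have hne : i ≠ j := by
          rintro rfl
          exact hj hi
        rw [sg_insert_ne U hne])
    rw [e]
    ring
  · rw [Finset.sum_insert hj, sg_notMem hjU]
    ring

theorem t_mon : MON := by
  intro ι _ s f t c ϕ hϕ
  induction s using Finset.induction_on with
  | empty =>
    intro _ _ a
    rw [EE_empty, EE_empty]
    simp
  | insert j s hj ih =>
    intro hf hc a
    have hf' : ∀ i ∈ s, |f i| ≤ 1 := fun i hi => hf i (Finset.mem_insert_of_mem hi)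
    have hc' : ∀ i ∈ s, 0 ≤ c i ∧ c i ≤ 1 := fun i hi => hc i (Finset.mem_insert_of_mem hi)
    have hfj := hf j (Finset.mem_insert_self j s)
    obtain ⟨hc0, hc1⟩ := hc j (Finset.mem_insert_self j s)
    obtain ⟨hf0, hf1⟩ := abs_le.1 hfj
    have hp : 0 ≤ (1 + f j) / 2 := by linarith
    have hq : 0 ≤ (1 - f j) / 2 := by linarith
    rw [EE_insert hj, EE_insert hj]
    have e1 : EE s f (fun U => ϕ (a + ∑ i ∈ insert j s, c i * t i * (sg (insert j U) i - f i))) =
        EE s f (fun U => ϕ ((a + c j * t j * (1 - f j)) + ∑ i ∈ s, c i * t i * (sg U i - f i))) :=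
      EE_congr (fun U hU => by rw [(MON_sum hj (fun i => c i * t i) f a hU).1])
    have e2 : EE s f (fun U => ϕ (a + ∑ i ∈ insert j s, c i * t i * (sg U i - f i))) =
        EE s f (fun U => ϕ ((a + c j * t j * (-1 - f j)) + ∑ i ∈ s, c i * t i * (sg U i - f i))) :=
      EE_congr (fun U hU => by rw [(MON_sum hj (fun i => c i * t i) f a hU).2])
    have e3 : EE s f (fun U => ϕ (a + ∑ i ∈ insert j s, t i * (sg (insert j U) i - f i))) =
        EE s f (fun U => ϕ ((a + ∑ i ∈ s, t i * (sg U i - f i)) + t j * (1 - f j))) :=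
      EE_congr (fun U hU => by
        rw [(MON_sum hj t f a hU).1]
        congr 1
        ring)
    have e4 : EE s f (fun U => ϕ (a + ∑ i ∈ insert j s, t i * (sg U i - f i))) =
        EE s f (fun U => ϕ ((a + ∑ i ∈ s, t i * (sg U i - f i)) + t j * (-1 - f j))) :=
      EE_congr (fun U hU => by
        rw [(MON_sum hj t f a hU).2]
        congr 1
        ring)
    rw [e1, e2, e3, e4]
    have i1 := ih hf' hc' (a + c j * t j * (1 - f j))
    have i2 := ih hf' hc' (a + c j * t j * (-1 - f j))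
    refine (add_le_add (mul_le_mul_of_nonneg_left i1 hp) (mul_le_mul_of_nonneg_left i2 hq)).trans ?_
    rw [← EE_mul, ← EE_mul, ← EE_add, ← EE_mul, ← EE_mul, ← EE_add]
    refine EE_mono hf' (fun U _ => ?_)
    have h := MON_one hϕ hfj hc0 hc1 (a + ∑ i ∈ s, t i * (sg U i - f i)) (t j)
    have g1 : (a + c j * t j * (1 - f j)) + ∑ i ∈ s, t i * (sg U i - f i) =
        (a + ∑ i ∈ s, t i * (sg U i - f i)) + c j * t j * (1 - f j) := by ring
    have g2 : (a + c j * t j * (-1 - f j)) + ∑ i ∈ s, t i * (sg U i - f i) =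
        (a + ∑ i ∈ s, t i * (sg U i - f i)) + c j * t j * (-1 - f j) := by ring
    rw [g1, g2]
    exact h

end Pool.Agent.helper43.KG
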